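import Pool.Agent.N662.FP.Stm

/-!
# Project FL: asymptotic inequality
-/

set_option autoImplicit false

open Filter Topology

namespace Pool.Agent.N293.FL

theorem t_E2 : Pool.Agent.N662.FP.S_E2 := by
  intro A C K κ κ' hA hC hK hκ'0 hκ'κ hκ1
  have hd : 0 < (κ - κ') / 2 := by linarith
  have hd2 : 0 < κ - κ' := by linarith
  have h1κ' : 0 < 1 - κ' := by linarith
  have h1κ : 0 < 1 - κ := by linarith
  have e2 : ∀ᶠ t : ℝ in atTop, 4 * C ≤ t ^ (1 - κ') :=
    (tendsto_rpow_atTop h1κ').eventually_ge_atTop _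
  have e3 : ∀ᶠ t : ℝ in atTop, 8 * A ≤ t ^ (κ - κ') :=
    (tendsto_rpow_atTop hd2).eventually_ge_atTop _
  have e4 : ∀ᶠ t : ℝ in atTop, max (80 * A) |Real.log K| ≤ t ^ ((κ - κ') / 2) :=
    (tendsto_rpow_atTop hd).eventually_ge_atTop _
  have e5 : ∀ᶠ t : ℝ in atTop, Real.log t ≤ t ^ ((κ - κ') / 2) := by
    have h := (isLittleO_log_rpow_atTop hd).bound (c := 1) one_pos
    filter_upwards [h, eventually_ge_atTop (1 : ℝ)] with t ht ht1
    rw [one_mul, Real.norm_of_nonneg (Real.log_nonneg ht1),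
      Real.norm_of_nonneg (Real.rpow_nonneg (by linarith) _)] at ht
    exact ht
  filter_upwards [e2, e3, e4, e5, eventually_ge_atTop (1 : ℝ)] with t h2 h3 h4 h5 ht1 M hM0 hM
  have ht0 : 0 < t := by linarith
  set y : ℝ := t ^ (1 - κ') with hy
  set s : ℝ := t ^ (1 - κ) with hs
  set x : ℝ := t ^ ((κ - κ') / 2) with hx
  have hy0 : 0 < y := Real.rpow_pos_of_pos ht0 _
  have hs0 : 0 < s := Real.rpow_pos_of_pos ht0 _
  have hx0 : 0 < x := Real.rpow_pos_of_pos ht0 _
  have hxx : t ^ (κ - κ') = x ^ 2 := by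
    rw [hx, ← Real.rpow_natCast, ← Real.rpow_mul ht0.le]
    congr 1
    push_cast
    ring
  have hys : y = s * x ^ 2 := by
    rw [← hxx, hy, hs, ← Real.rpow_add ht0]
    congr 1
    ring
  rw [hxx] at h3
  have hMt : M ≤ t := by linarith
  set w : ℝ := A * (1 + M) ^ (1 - κ) with hw
  have hw0 : 0 < w := mul_pos hA (Real.rpow_pos_of_pos (by linarith) _)
  have hws : w ≤ 2 * A * s := by
    have h6 : (1 + M) ^ (1 - κ) ≤ (2 * t) ^ (1 - κ) :=
      Real.rpow_le_rpow (by linarith) (by linarith) h1κ.le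
    have h7 : (2 * t) ^ (1 - κ) = 2 ^ (1 - κ) * s := Real.mul_rpow (by norm_num) ht0.le
    have h8 : (2 : ℝ) ^ (1 - κ) ≤ 2 := by
      calc (2 : ℝ) ^ (1 - κ) ≤ 2 ^ (1 : ℝ) :=
            Real.rpow_le_rpow_of_exponent_le (by norm_num) (by linarith)
        _ = 2 := Real.rpow_one 2
    have h9 : (1 + M) ^ (1 - κ) ≤ 2 * s := by
      rw [h7] at h6
      exact h6.trans (mul_le_mul_of_nonneg_right h8 hs0.le)
    calc w ≤ A * (2 * s) := mul_le_mul_of_nonneg_left h9 hA.le
      _ = 2 * A * s := by ring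
  have hwy : w ≤ y / 4 := by
    have : s * (8 * A) ≤ s * x ^ 2 := mul_le_mul_of_nonneg_left h3 hs0.le
    rw [hys]
    linarith
  have hgap : y / 2 ≤ t - M - w := by linarith
  refine ⟨by linarith, ?_⟩
  -- the exponent
  have hexp : x ^ 2 / (20 * A) ≤ (t - M - w) / (5 * w) := by
    rw [div_le_div_iff₀ (by positivity) (by positivity)]
    have h6 : x ^ 2 * (5 * w) ≤ x ^ 2 * (5 * (2 * A * s)) :=
      mul_le_mul_of_nonneg_left (by linarith) (by positivity)
    have h7 : x ^ 2 * (5 * (2 * A * s)) = (y / 2) * (20 * A) := by rw [hys]; ring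
    have h8 : (y / 2) * (20 * A) ≤ (t - M - w) * (20 * A) :=
      mul_le_mul_of_nonneg_right hgap (by positivity)
    linarith
  have hKt : K * t ^ 2 = Real.exp (Real.log K + 2 * Real.log t) := by
    rw [Real.exp_add, Real.exp_log hK, mul_comm 2 (Real.log t), Real.exp_mul, Real.exp_log ht0]
    norm_num
  have h6 : 80 * A ≤ x := (le_max_left _ _).trans h4
  have h7 : Real.log K ≤ x := (le_abs_self _).trans ((le_max_right _ _).trans h4)
  have h8 : 4 * x ≤ x ^ 2 / (20 * A) := by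
    rw [le_div_iff₀ (by positivity)]
    nlinarith
  rw [hKt, ← Real.exp_add]
  apply Real.exp_le_exp.mpr
  linarith

end Pool.Agent.N293.FL
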